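import Mathlib
import Pool.Agent.Helper66.DC.Goals4
import Pool.Agent.Helper87.DC.CL

/-!
Packet DC4-DER: the pairing of a derivative with `g` on the hyperplane.
-/

namespace Pool.Agent.Helper19.DC

open MvPolynomial Finset ComplexConjugate Pool.Agent.Helper69.DC Pool.Agent.Helper66.DC
open Pool.Agent.Helper50.DC (eval_aeval' sum_conj_self sum_sq_pos)
open Pool.Agent.Helper87.DC

variable {m N : ℕ}

theorem mu_apply (S : Finset (Fin m)) (i : Fin m) :
    (∑ j ∈ S, Finsupp.single j 1 : Fin m →₀ ℕ) i = if i ∈ S then 1 else 0 := by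
  rw [Finsupp.finsetSum_apply]
  simp only [Finsupp.single_apply]
  rw [Finset.sum_ite_eq' S i]

theorem coeff_mu_mul (t : Fin m → ℂ) (S : Finset (Fin m)) (R : MvPolynomial (Fin m) ℂ) :
    coeff (∑ i ∈ S, Finsupp.single i 1) ((∑ i, C (t i) * X i) * R) =
      ∑ i ∈ S, t i * coeff (∑ j ∈ S.erase i, Finsupp.single j 1) R := by
  rw [Finset.sum_mul, coeff_sum]
  have h1 : ∀ i : Fin m, coeff (∑ j ∈ S, Finsupp.single j 1) (C (t i) * X i * R) =
      if i ∈ S then t i * coeff (∑ j ∈ S.erase i, Finsupp.single j 1) R else 0 := by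
    intro i
    rw [mul_assoc, coeff_C_mul, coeff_X_mul']
    have h2 : i ∈ (∑ j ∈ S, Finsupp.single j 1 : Fin m →₀ ℕ).support ↔ i ∈ S := by
      rw [Finsupp.mem_support_iff, mu_apply]
      by_cases hi : i ∈ S
      · simp [hi]
      · simp [hi]
    by_cases hi : i ∈ S
    · rw [if_pos (h2.2 hi), if_pos hi]
      rw [← Finset.add_sum_erase S (fun j => (Finsupp.single j 1 : Fin m →₀ ℕ)) hi,
        add_tsub_cancel_left]
    · rw [if_neg fun h => hi (h2.1 h), if_neg hi, mul_zero]
  rw [Finset.sum_congr rfl fun i _ => h1 i, Finset.sum_ite_mem, Finset.univ_inter]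

theorem coeff_mu_pow (t : Fin m → ℂ) (Q : MvPolynomial (Fin m) ℂ) (k : ℕ) :
    ∀ S : Finset (Fin m), S.card = k →
    coeff (∑ i ∈ S, Finsupp.single i 1) ((∑ i, C (t i) * X i) ^ k * Q) =
      (k.factorial : ℂ) * (∏ i ∈ S, t i) * coeff 0 Q := by
  induction k with
  | zero =>
    intro S hS
    rw [Finset.card_eq_zero.1 hS]
    simp
  | succ k ih =>
    intro S hS
    rw [pow_succ', mul_assoc, coeff_mu_mul]
    have h1 : ∀ i ∈ S, t i * coeff (∑ j ∈ S.erase i, Finsupp.single j 1)
        ((∑ i, C (t i) * X i) ^ k * Q) = (k.factorial : ℂ) * (∏ i ∈ S, t i) * coeff 0 Q := by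
      intro i hi
      rw [ih (S.erase i) (by rw [Finset.card_erase_of_mem hi, hS]; rfl),
        ← Finset.mul_prod_erase S t hi]
      ring
    rw [Finset.sum_congr rfl h1, Finset.sum_const, hS, nsmul_eq_mul, Nat.factorial_succ]
    push_cast
    ring

/-- The conjugate substitution. -/
noncomputable def sg (e : Fin m → Fin m → ℂ) (a : Fin m) :
    MvPolynomial (Fin m) ℂ →ₐ[ℂ] MvPolynomial (Fin m) ℂ :=
  aeval fun p => C (conj (e a p)) + ∑ i, C (conj (e i p)) * X i

theorem sg_cj (e : Fin m → Fin m → ℂ) (a : Fin m) (P : MvPolynomial (Fin m) ℂ) :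
    sg e a (map (starRingEnd ℂ) P) =
      map (starRingEnd ℂ) (aeval (fun p => C (e a p) + ∑ i, C (e i p) * X i) P) := by
  induction P using MvPolynomial.induction_on with
  | C b =>
    rw [map_C, algHom_C, algHom_C]
    exact (map_C _ _).symm
  | add p q hp hq => simp only [map_add, hp, hq]
  | mul_X p i hp =>
    rw [map_mul, map_mul, map_mul, map_mul, hp, map_X, aeval_X]
    congr 1
    unfold sg
    rw [aeval_X]
    simp only [map_add, map_sum, map_mul, map_C, map_X]

theorem coeff_sg_cj (e : Fin m → Fin m → ℂ) (a : Fin m) (S : Finset (Fin m))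
    (P : MvPolynomial (Fin m) ℂ) :
    coeff (∑ i ∈ S, Finsupp.single i 1) (sg e a (map (starRingEnd ℂ) P)) =
      conj (dcf e a S P) := by
  rw [sg_cj, coeff_map]
  rfl

theorem sg_lin (e : Fin m → Fin m → ℂ) (a : Fin m) (w : Fin m → ℂ)
    (hw : ∑ p, w p * conj (e a p) = 0) :
    sg e a (∑ i, C (w i) * X i) = ∑ i, C (∑ p, w p * conj (e i p)) * X i := by
  unfold sg
  rw [map_sum]
  have h1 : ∀ p : Fin m, (aeval (fun p => C (conj (e a p)) + ∑ i, C (conj (e i p)) * X i)
      (C (w p) * X p : MvPolynomial (Fin m) ℂ) : MvPolynomial (Fin m) ℂ) =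
      C (w p * conj (e a p)) + ∑ i, C (w p * conj (e i p)) * X i := by
    intro p
    rw [map_mul, algHom_C, aeval_X, mul_add, Finset.mul_sum]
    congr 1
    · exact (C_mul).symm
    · refine Finset.sum_congr rfl fun i _ => ?_
      rw [C_mul, ← mul_assoc]
      rfl
  rw [Finset.sum_congr rfl fun p _ => h1 p, Finset.sum_add_distrib, ← map_sum, hw, map_zero,
    zero_add, Finset.sum_comm]
  refine Finset.sum_congr rfl fun i _ => ?_
  rw [map_sum, Finset.sum_mul]

theorem coeff_zero_eval (P : MvPolynomial (Fin m) ℂ) : coeff 0 P = eval 0 P := by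
  rw [← constantCoeff_eq, ← MvPolynomial.eval_zero]

/-- **DC4-DER.** -/
theorem h_der (h : J_GS) : Pool.Agent.Helper66.DC.Q_DER := by
  intro m N k β g c hm hdiv e a S ha hS G' hG' w hw
  -- the factorisation
  obtain ⟨G, hG⟩ : (∑ i : Fin m, X (Sum.inl i) * X (Sum.inr i) :
      MvPolynomial (Fin m ⊕ Fin m) ℂ) ^ k ∣ HH β g c := by
    refine h m k _ hm fun ζ _ => ?_
    rw [HH_zeta]
    have h1 := map_dvd (tr β) (hdiv fun i => conj (ζ i))
    rw [map_pow, tr_xp] at h1
    have h2 : lf (fun i => conj (ζ i)) = ∑ i : Fin m, C (ζ i) * X i := by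
      unfold lf
      exact Finset.sum_congr rfl fun i _ => by rw [Complex.conj_conj]
    rwa [h2] at h1
  -- the coefficient
  have hwt : hf (ev g fun p => β p + w p) (dv e a S c) =
      (k.factorial : ℂ) * (∏ i ∈ S, ∑ p, w p * conj (e i p)) *
        eval (Sum.elim w fun i => conj (e a i)) G := by
    have h1 := HH_w β g c w
    rw [hG, map_mul, map_pow, map_sum] at h1
    have h2 : (∑ i : Fin m, (aeval (Sum.elim (fun i => C (w i)) X)
        (X (Sum.inl i) * X (Sum.inr i) : MvPolynomial (Fin m ⊕ Fin m) ℂ) :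
          MvPolynomial (Fin m) ℂ)) = ∑ i : Fin m, C (w i) * X i := by
      refine Finset.sum_congr rfl fun i _ => ?_
      rw [map_mul, aeval_X, aeval_X, Sum.elim_inl, Sum.elim_inr]
    rw [h2] at h1
    have h3 := congrArg (fun P => coeff (∑ i ∈ S, Finsupp.single i 1) (sg e a P)) h1
    rw [map_mul, map_pow, sg_lin e a w hw, coeff_mu_pow _ _ k S hS, coeff_zero_eval, map_sub,
      map_sum, coeff_sub, coeff_sum] at h3
    simp only [map_mul, algHom_C] at h3
    have h5 : ∀ (b : ℂ) (P : MvPolynomial (Fin m) ℂ),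
        coeff (∑ i ∈ S, Finsupp.single i 1) ((algebraMap ℂ (MvPolynomial (Fin m) ℂ)) b * P) =
          b * coeff (∑ i ∈ S, Finsupp.single i 1) P := fun b P => coeff_C_mul _ _ _
    simp only [h5, coeff_sg_cj] at h3
    have h6 : ∀ P : MvPolynomial (Fin m) ℂ, eval 0 (sg e a P) =
        eval (fun i => conj (e a i)) P := by
      intro P
      unfold sg
      rw [eval_aeval']
      congr 2
      funext i
      simp
    rw [h6, eval_aeval'] at h3
    have h4 : (fun i => eval (fun i => conj (e a i))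
        ((Sum.elim (fun i => C (w i)) X : Fin m ⊕ Fin m → MvPolynomial (Fin m) ℂ) i)) =
        Sum.elim w fun i => conj (e a i) := by
      funext i
      rcases i with i | i
      · simp
      · simp
    rw [h4] at h3
    rw [h3]
    rfl
  rw [hwt]
  congr 1
  -- the restriction of `G`
  set Gz : MvPolynomial (Fin m) ℂ := aeval (Sum.elim X fun i => C (conj (e a i))) G with hGz
  have hGzev : eval w Gz = eval (Sum.elim w fun i => conj (e a i)) G := by
    rw [hGz, eval_aeval']
    congr 2
    funext i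
    rcases i with i | i
    · simp
    · simp
  have h1 := HH_zeta β g c fun i => conj (e a i)
  rw [hG, map_mul, map_pow, map_sum] at h1
  have h2 : (∑ i : Fin m, (aeval (Sum.elim X fun i => C (conj (e a i)))
      (X (Sum.inl i) * X (Sum.inr i) : MvPolynomial (Fin m ⊕ Fin m) ℂ) :
        MvPolynomial (Fin m) ℂ)) = lf (e a) := by
    unfold lf
    refine Finset.sum_congr rfl fun i _ => ?_
    rw [map_mul, aeval_X, aeval_X, Sum.elim_inl, Sum.elim_inr, mul_comm]
  rw [h2, ← hGz] at h1
  simp only [Complex.conj_conj] at h1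
  have h7 : (fun i => e a i) = e a := rfl
  rw [hG', map_mul, map_pow, tr_xp] at h1
  have hne : lf (e a) ≠ 0 := by
    intro h0
    have h8 := eval_lf (e a) (e a)
    rw [h0, map_zero] at h8
    exact ip_self ha h8.symm
  have h9 := mul_left_cancel₀ (pow_ne_zero k hne) h1
  rw [← hGzev, h9, eval_tr]

end Pool.Agent.Helper19.DC
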